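import Pool.Agent.Helper69.CB.TriDefs

/-!
# T-TRI, pieces D3, D5
-/

set_option autoImplicit false

namespace Pool.Agent.Helper11.CB

open NumberField Polynomial Pool.Agent.Helper4.CB Pool.Agent.Helper69.CB

variable {K : Type} [Field K] [NumberField K]

theorem finite_gt_one (x : K) : {p : Pl K | 1 < vl p x}.Finite := by
  have h := IsDedekindDomain.HeightOneSpectrum.Support.finite (𝓞 K) x
  exact h

/-- **D3.** almost all places do not meet finitely many numbers -/
theorem finite_ne_one (S : Finset K) : {p : Pl K | ∃ x ∈ S, x ≠ 0 ∧ vl p x ≠ 1}.Finite := by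
  have h : {p : Pl K | ∃ x ∈ S, x ≠ 0 ∧ vl p x ≠ 1} ⊆
      ⋃ x ∈ S, ({p : Pl K | 1 < vl p x} ∪ {p : Pl K | 1 < vl p x⁻¹}) := by
    rintro p ⟨x, hx, h0, h1⟩
    simp only [Set.mem_iUnion, Set.mem_union, Set.mem_ofPred_eq]
    refine ⟨x, hx, ?_⟩
    rcases lt_or_gt_of_ne h1 with h | h
    · right
      rw [map_inv₀]
      exact (one_lt_inv₀ (by
        rw [zero_lt_iff]
        exact (Valuation.ne_zero_iff _).2 h0)).2 h
    · exact Or.inl h
  refine Set.Finite.subset ?_ h
  exact Set.Finite.biUnion S.finite_toSet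
    (fun x _ => (finite_gt_one x).union (finite_gt_one x⁻¹))

/-- **D5.** continuity modulo `p` -/
theorem eval_sub_lt (p : Pl K) {f : K[X]} (hf : ∀ j, vl p (f.coeff j) ≤ 1) {x y : K}
    (hx : vl p x ≤ 1) (hy : vl p y ≤ 1) (hxy : vl p (x - y) < 1) :
    vl p (f.eval x - f.eval y) < 1 := by
  rw [Polynomial.eval_eq_sum, Polynomial.eval_eq_sum, Polynomial.sum, Polynomial.sum,
    ← Finset.sum_sub_distrib]
  refine Valuation.map_sum_lt _ one_ne_zero (fun i _ => ?_)
  have hg : vl p (x ^ i - y ^ i) < 1 := by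
    have hcom : x ^ i - y ^ i = (x - y) * ∑ j ∈ Finset.range i, x ^ j * y ^ (i - 1 - j) := by
      rw [mul_comm]
      exact (Commute.all x y).geom_sum₂_mul i |>.symm
    rw [hcom, map_mul]
    refine lt_of_le_of_lt (mul_le_of_le_one_right' ?_) hxy
    refine Valuation.map_sum_le _ (fun j _ => ?_)
    rw [map_mul, map_pow, map_pow]
    exact mul_le_one' (pow_le_one' hx _) (pow_le_one' hy _)
  rw [← mul_sub, map_mul]
  exact lt_of_le_of_lt (mul_le_of_le_one_left' (hf i)) hg

end Pool.Agent.Helper11.CB
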